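import Pool.Agent.TH659.AQ.PolysG

/-!
# Euler's number and the periods of families at almost all tuples of rational parameters
-/

set_option autoImplicit false

namespace Pool.Agent.Results.MP_2cf66e_nt.PeriodsAtAlmostAllRationals

/-- The complete elliptic integral of the first kind, `K(s) = ∫_0^{π/2} (1 - s sin²θ)^(-1/2) dθ`. -/
noncomputable def K (s : ℝ) : ℝ := ∫ θ in (0 : ℝ)..(Real.pi / 2), 1 / √(1 - s * Real.sin θ ^ 2)

/-- The complete elliptic integral of the second kind, `E(s) = ∫_0^{π/2} (1 - s sin²θ)^(1/2) dθ`. -/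
noncomputable def E (s : ℝ) : ℝ := ∫ θ in (0 : ℝ)..(Real.pi / 2), √(1 - s * Real.sin θ ^ 2)

/-- `f_0(t) = log t`, and for `k ≥ 1` the polylogarithm `f_k(t) = Li_k(t) = ∑_{m ≥ 1} t^m / m^k`. -/
noncomputable def f (k : ℕ) (t : ℝ) : ℝ := if k = 0 then Real.log t else ∑' m : ℕ, t ^ (m + 1) / ((m : ℝ) + 1) ^ k

/-- The `1 + n (3 N + w + 1)` numbers `e`; `K(s)`, `E(s)`, `K(1 - s)` for `s = (q_l - α_j) / (γ_j - α_j)`, `j < N`;
`log q_l`, `Li_1(q_l)`, …, `Li_w(q_l)`; `l < n`. -/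
noncomputable def numbers {N n w : ℕ} (α γ : Fin N → ℝ) (q : Fin n → ℚ)
    (z : Option (Fin n × ((Fin N × Fin 3) ⊕ Fin (w + 1)))) : ℝ :=
  match z with
  | none => Real.exp 1
  | some (l, Sum.inl (j, i)) => ![K ((q l - α j) / (γ j - α j)), E ((q l - α j) / (γ j - α j)),
      K (1 - (q l - α j) / (γ j - α j))] i
  | some (l, Sum.inr k) => f (k : ℕ) (q l)

/-- The `n`-tuples `q` of rational numbers in `[a, b]` with denominators at most `T` for which some nonzero polynomial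
with integer coefficients of absolute value at most `T ^ A`, of degree at most `d` in each variable, takes at the
`numbers` a value of absolute value at most `T ^ (-B)`. -/
def Exceptional {N : ℕ} (n w d : ℕ) (α γ : Fin N → ℝ) (a b A B T : ℝ) : Set (Fin n → ℚ) :=
  {q | (∀ l, a ≤ q l ∧ q l ≤ b ∧ ((q l).den : ℝ) ≤ T) ∧
    ∃ P : MvPolynomial (Option (Fin n × ((Fin N × Fin 3) ⊕ Fin (w + 1)))) ℤ, P ≠ 0 ∧ (∀ z, P.degreeOf z ≤ d) ∧
      (∀ s, |((P.coeff s : ℤ) : ℝ)| ≤ T ^ A) ∧ |MvPolynomial.aeval (numbers α γ q) P| ≤ T ^ (-B)}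

/-- Let `α_1 > ⋯ > α_N > 0`, `γ_1 < ⋯ < γ_N < 1` and `0 < a < b < 1` with `α_1 < a`, `b < γ_1`. For `n ≥ 1`, `w`, `d`,
`A ≥ 0` and `β > 2 - 2 / ((d + 1) ^ ((3 N + w + 1) n + 1) + 1)` there are `B` and `C` such that for all `T ≥ 1` there
are at most `C T ^ (2 (n - 1) + β)` exceptional `n`-tuples. -/
theorem result {N : ℕ} (n w d : ℕ) (hn : 1 ≤ n) (α γ : Fin N → ℝ) (hα : StrictAnti α) (hγ : StrictMono γ)
    (hα0 : ∀ j, 0 < α j) (hγ1 : ∀ j, γ j < 1) (a b : ℝ) (ha : 0 < a) (hab : a < b) (hb : b < 1)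
    (h : ∀ j, α j < a ∧ b < γ j) (A β : ℝ) (hA : 0 ≤ A)
    (hβ : 2 - 2 / (((d : ℝ) + 1) ^ ((3 * N + w + 1) * n + 1) + 1) < β) :
    ∃ B C : ℝ, ∀ T : ℝ, 1 ≤ T → (Exceptional n w d α γ a b A B T).Finite ∧
      ((Exceptional n w d α γ a b A B T).ncard : ℝ) ≤ C * T ^ (2 * ((n : ℝ) - 1) + β) := by
  obtain ⟨B, C, h0⟩ := TH659.AQ.e_mixed (w := w) n d hn α γ hα hγ hα0 hγ1 a b ha hab hb h A β hA hβ
  refine ⟨B, C, fun T hT => ?_⟩
  have heq : ∀ q : Fin n → ℚ, numbers (w := w) α γ q =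
      TH659.AQ.vG (Real.exp 1) (TH659.AQ.u2 (w := w) α γ) q := by
    intro q
    funext z
    rcases z with _ | ⟨l, ⟨j, i⟩ | k⟩
    · rfl
    · have hne : γ j - α j ≠ 0 := by linarith [(h j).1, (h j).2]
      fin_cases i
      · rfl
      · rfl
      · show K (1 - (q l - α j) / (γ j - α j)) = TH818.AR.KK ((γ j - q l) / (γ j - α j))
        have : 1 - ((q l : ℝ) - α j) / (γ j - α j) = (γ j - q l) / (γ j - α j) := by
          field_simp
          ring
        rw [this]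
        rfl
    · rfl
  have heq2 : Exceptional n w d α γ a b A B T =
      TH659.AQ.ExG (n := n) d (Real.exp 1) (TH659.AQ.u2 (w := w) α γ) a b A B T := by
    unfold Exceptional TH659.AQ.ExG
    simp only [heq]
  rw [heq2]
  exact h0 T hT

end Pool.Agent.Results.MP_2cf66e_nt.PeriodsAtAlmostAllRationals
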