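import Pool.Agent.TH379.PER.E2

set_option autoImplicit false

/-!
# Polynomials in Euler's number and linear forms in periods of one variable

`Forms γ` is the space of all linear combinations, with algebraic coefficients, of the integrals
of rational functions of one variable with algebraic coefficients over compact intervals with
algebraic end points, of all logarithms of algebraic numbers, and of finitely many arbitrary
complex numbers `γ 0, ..., γ (g - 1)`.
-/

namespace Pool.Agent.Results.MP_2cf66e_nt.PolynomialsInE

open Pool.Agent.TH379.PER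
open scoped Pointwise

/-- (1) general sets of exponents, (2) polynomials in `e`, (3) powers of `e ^ α`. -/
theorem result (g : ℕ) (γ : Fin g → ℂ) :
    (∀ A B : Finset ℂ, (∀ a ∈ A, IsAlgebraic ℚ a) →
      A.card * Module.finrank (algebraicClosure ℚ ℂ) ↥(expSpan B ⊓ Forms γ) ≤
        (A + B).card + A.card * (A.card - 1) + A.card * g) ∧
    (∀ D : ℕ, (Module.finrank (algebraicClosure ℚ ℂ) ↥(polySpace γ D) : ℝ) ≤
      2 * Real.sqrt D + 1 + g) ∧
    (∀ α : ℂ, IsAlgebraic ℚ α → α ≠ 0 → ∀ N : ℕ,
      (Set.ncard {n : ℕ | n ≤ N ∧ Complex.exp (n * α) ∈ Forms γ} : ℝ) ≤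
        2 * Real.sqrt N + 1 + g) :=
  ⟨fun A B hA => exp_ineq γ A B hA,
    fun D => opt _ D g (fun d hd => poly_ineq γ D d hd),
    fun _ hα h0 N => opt _ N g (fun d hd => count_ineq γ hα h0 N d hd)⟩

end Pool.Agent.Results.MP_2cf66e_nt.PolynomialsInE
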